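import Mathlib

set_option autoImplicit false
open MeasureTheory Set Filter Topology
open scoped Pointwise

namespace Pool.Agent.H.MP_598757_gt

abbrev E := EuclideanSpace ℝ (Fin 3)

def Bx (b : OrthonormalBasis (Fin 3) ℝ E) (lo hi : Fin 3 → ℝ) : Set E :=
  {x | ∀ i, lo i ≤ inner ℝ (b i) x ∧ inner ℝ (b i) x ≤ hi i}

theorem vol_Bx' (b : OrthonormalBasis (Fin 3) ℝ E) (lo hi : Fin 3 → ℝ) :
    volume (Bx b lo hi) = volume (Icc lo hi) := by
  have h := (PiLp.volume_preserving_ofLp (Fin 3)).comp b.measurePreserving_repr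
  rw [← h.measure_preimage measurableSet_Icc.nullMeasurableSet]
  congr 1
  ext x
  simp [Bx, Pi.le_def, OrthonormalBasis.repr_apply_apply, forall_and]

theorem Bx_fin (b : OrthonormalBasis (Fin 3) ℝ E) (lo hi : Fin 3 → ℝ) :
    volume (Bx b lo hi) ≠ ⊤ := by
  rw [vol_Bx']; exact isCompact_Icc.measure_lt_top.ne

theorem vol_Bx (b : OrthonormalBasis (Fin 3) ℝ E) (lo hi : Fin 3 → ℝ) (h : lo ≤ hi) :
    volume.real (Bx b lo hi) = (hi 0 - lo 0) * (hi 1 - lo 1) * (hi 2 - lo 2) := by
  rw [Measure.real, vol_Bx', Real.volume_Icc_pi_toReal h, Fin.prod_univ_three]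

theorem convex_Bx (b : OrthonormalBasis (Fin 3) ℝ E) (lo hi : Fin 3 → ℝ) :
    Convex ℝ (Bx b lo hi) := by
  intro x hx y hy s t hs ht hst i
  have h1 := hx i
  have h2 := hy i
  simp only [inner_add_right, inner_smul_right]
  have e1 : lo i = s * lo i + t * lo i := by rw [← add_mul, hst, one_mul]
  have e2 : hi i = s * hi i + t * hi i := by rw [← add_mul, hst, one_mul]
  constructor <;> nlinarith [mul_le_mul_of_nonneg_left h1.1 hs, mul_le_mul_of_nonneg_left h1.2 hs,
    mul_le_mul_of_nonneg_left h2.1 ht, mul_le_mul_of_nonneg_left h2.2 ht]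

def Ex (Z : Set E) (e : E) (τ : ℝ) : Set E := {x | ∃ s : ℝ, |s| ≤ τ ∧ x - s • e ∈ Z}

theorem convex_Ex {Z : Set E} (hZ : Convex ℝ Z) (e : E) (τ : ℝ) : Convex ℝ (Ex Z e τ) := by
  rintro x ⟨s, h1, h2⟩ y ⟨s', h3, h4⟩ a c ha hc hac
  refine ⟨a * s + c * s', ?_, ?_⟩
  · rw [abs_le] at *
    have e1 : τ = a * τ + c * τ := by rw [← add_mul, hac, one_mul]
    constructor <;> nlinarith [mul_le_mul_of_nonneg_left h1.1 ha, mul_le_mul_of_nonneg_left h1.2 ha,
      mul_le_mul_of_nonneg_left h3.1 hc, mul_le_mul_of_nonneg_left h3.2 hc]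
  · convert hZ h2 h4 ha hc hac using 1
    module

theorem inner_b (b : OrthonormalBasis (Fin 3) ℝ E) (i j : Fin 3) :
    inner ℝ (b i) (b j) = if i = j then 1 else 0 := orthonormal_iff_ite.1 b.orthonormal i j

theorem Ex_sub {Z : Set E} (b : OrthonormalBasis (Fin 3) ℝ E) {lo hi : Fin 3 → ℝ}
    (h : Z ⊆ Bx b lo hi) (i : Fin 3) (τ : ℝ) :
    Ex Z (b i) τ ⊆ Bx b (Function.update lo i (lo i - τ)) (Function.update hi i (hi i + τ)) := by
  rintro x ⟨s, h1, h2⟩ j
  have := h h2 j
  rw [inner_sub_right, inner_smul_right, inner_b] at this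
  rw [abs_le] at h1
  by_cases c : j = i
  · subst c
    simp only [Function.update_self, if_true] at this ⊢
    constructor <;> linarith [this.1, this.2]
  · simpa [Function.update_of_ne c, c] using this

theorem vol_Ex {Z : Set E} (hZ : Convex ℝ Z) (b : OrthonormalBasis (Fin 3) ℝ E) {lo hi : Fin 3 → ℝ}
    (h : Z ⊆ Bx b lo hi) (i : Fin 3) {τ : ℝ} (hτ : 0 ≤ τ) :
    volume.real (Ex Z (b i) τ) ≤ volume.real Z +
      volume.real (Bx b (Function.update lo i (lo i - τ)) (Function.update hi i (lo i + τ))) := by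
  set Y : Set E := {x | lo i - τ ≤ inner ℝ (b i) x ∧ ∃ s : ℝ, τ ≤ s ∧ x + s • b i ∈ Z} with hY
  have cY : Convex ℝ Y := by
    rintro x ⟨h0, s, h1, h2⟩ y ⟨h0', s', h3, h4⟩ a c ha hc hac
    refine ⟨?_, a * s + c * s', ?_, ?_⟩
    · simp only [inner_add_right, inner_smul_right]
      have e1 : lo i - τ = a * (lo i - τ) + c * (lo i - τ) := by rw [← add_mul, hac, one_mul]
      nlinarith [mul_le_mul_of_nonneg_left h0 ha, mul_le_mul_of_nonneg_left h0' hc]
    · have e1 : τ = a * τ + c * τ := by rw [← add_mul, hac, one_mul]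
      nlinarith [mul_le_mul_of_nonneg_left h1 ha, mul_le_mul_of_nonneg_left h3 hc]
    · convert hZ h2 h4 ha hc hac using 1
      module
  have oth : ∀ (x : E) (s : ℝ), x + s • b i ∈ Z → ∀ j, j ≠ i →
      lo j ≤ inner ℝ (b j) x ∧ inner ℝ (b j) x ≤ hi j := by
    intro x s hx j hj
    have := h hx j
    rw [inner_add_right, inner_smul_right, inner_b] at this
    simpa [hj] using this
  have fY : volume Y ≠ ⊤ := by
    refine ne_top_of_le_ne_top (Bx_fin b (Function.update lo i (lo i - τ)) hi) (measure_mono ?_)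
    rintro x ⟨h0, s, h1, h2⟩ j
    by_cases c : j = i
    · subst c
      have := (h h2 j).2
      rw [inner_add_right, inner_smul_right, inner_b, if_pos rfl] at this
      rw [Function.update_self]
      exact ⟨h0, by linarith⟩
    · rw [Function.update_of_ne c]
      exact oth x s h2 j c
  have fZ : volume Z ≠ ⊤ := ne_top_of_le_ne_top (Bx_fin b lo hi) (measure_mono h)
  have fV : volume (Ex Z (b i) τ) ≠ ⊤ :=
    ne_top_of_le_ne_top (Bx_fin b _ _) (measure_mono (Ex_sub b h i τ))
  have k1 := measureReal_union_add_inter₀' (μ := volume) (s := Y) (t := Ex Z (b i) τ)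
    (cY.nullMeasurableSet volume) fY fV
  have p1 : volume ((fun x => x + τ • b i) ⁻¹' Z) = volume Z := measure_preimage_add_right _ _ _
  have p2 : volume ((fun x => x + (-(2 * τ)) • b i) ⁻¹' Y) = volume Y :=
    measure_preimage_add_right _ _ _
  have k2 : volume.real (Y ∩ Ex Z (b i) τ) ≤ volume.real Z := by
    rw [show volume.real Z = volume.real ((fun x => x + τ • b i) ⁻¹' Z) by
      rw [Measure.real, Measure.real, p1]]
    refine measureReal_mono ?_ (by rwa [p1])
    rintro x ⟨⟨-, s, h1, h2⟩, s', h3, h4⟩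
    rw [abs_le] at h3
    rcases (show 0 ≤ s + s' by linarith).eq_or_lt with c | c
    · have : s = τ := by linarith
      rwa [this] at h2
    · have := hZ h2 h4 (a := (τ + s') / (s + s')) (b := (s - τ) / (s + s'))
        (div_nonneg (by linarith) c.le) (div_nonneg (by linarith) c.le) (by field_simp; ring)
      rw [mem_preimage]
      convert this using 1
      match_scalars <;> field_simp <;> ring
  have k3 : volume.real (Y ∪ Ex Z (b i) τ) ≤ volume.real Y +
      volume.real (Bx b (Function.update lo i (lo i - τ)) (Function.update hi i (lo i + τ))) := by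
    rw [show volume.real Y = volume.real ((fun x => x + (-(2 * τ)) • b i) ⁻¹' Y) by
      rw [Measure.real, Measure.real, p2]]
    refine le_trans (measureReal_mono ?_ (measure_union_ne_top (by rwa [p2]) (Bx_fin _ _ _)))
      (measureReal_union_le _ _)
    intro x hx
    have : lo i - τ ≤ inner ℝ (b i) x ∧ ∃ s : ℝ, -τ ≤ s ∧ x + s • b i ∈ Z := by
      rcases hx with ⟨h0, s, h1, h2⟩ | ⟨s, h1, h2⟩
      · exact ⟨h0, s, by linarith, h2⟩
      · refine ⟨?_, -s, by linarith [(abs_le.1 h1).2], by rwa [neg_smul, ← sub_eq_add_neg]⟩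
        have := (Ex_sub b h i τ ⟨s, h1, h2⟩ i).1
        rwa [Function.update_self] at this
    obtain ⟨h0, s, h1, h2⟩ := this
    by_cases c : inner ℝ (b i) x ≤ lo i + τ
    · right
      intro j
      by_cases c' : j = i
      · subst c'
        simp only [Function.update_self]
        exact ⟨h0, c⟩
      · rw [Function.update_of_ne c', Function.update_of_ne c']
        exact oth x s h2 j c'
    · left
      refine ⟨?_, s + 2 * τ, by linarith, ?_⟩
      · rw [inner_add_right, inner_smul_right, inner_b, if_pos rfl]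
        linarith
      · convert h2 using 1
        module
  linarith

theorem analysis (F : ℝ → ℝ) (A A' δ C L : ℝ)
    (h : ∀ t, 0 < t → t ≤ 1 → 2 * t * A + δ * t ^ 2 ≤ F t ∧ F t ≤ 2 * t * A + t ^ 2 * (C + 8 * t))
    (hL : Tendsto (fun t : ℝ => (F t - 2 * t * A') / (Real.pi * t ^ 2)) (𝓝[>] 0) (𝓝 L)) :
    A' = A ∧ δ / Real.pi ≤ L ∧ L ≤ C / Real.pi := by
  have hp := Real.pi_pos
  have ev : ∀ᶠ t : ℝ in 𝓝[>] 0, 0 < t ∧ t ≤ 1 := by
    filter_upwards [Ioc_mem_nhdsGT (show (0 : ℝ) < 1 by norm_num)] with t ht using ht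
  have t0 : Tendsto (fun t : ℝ => t) (𝓝[>] 0) (𝓝 0) := tendsto_nhdsWithin_of_tendsto_nhds tendsto_id
  have e : A' = A := by
    have a1 := (hL.mul t0).const_mul Real.pi
    have a2 := (t0.const_mul δ).const_add (2 * (A - A'))
    have a3 := (t0.mul ((t0.const_mul 8).const_add C)).const_add (2 * (A - A'))
    simp only [mul_zero, add_zero, zero_mul] at a1 a2 a3
    have b1 := le_of_tendsto_of_tendsto a2 a1 (ev.mono fun t ht => by
      have := (h t ht.1 ht.2).1
      have h0 := ht.1
      show _ ≤ Real.pi * ((F t - 2 * t * A') / (Real.pi * t ^ 2) * t)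
      rw [show Real.pi * ((F t - 2 * t * A') / (Real.pi * t ^ 2) * t) = (F t - 2 * t * A') / t by
        field_simp, le_div_iff₀ h0]
      nlinarith)
    have b2 := le_of_tendsto_of_tendsto a1 a3 (ev.mono fun t ht => by
      have := (h t ht.1 ht.2).2
      have h0 := ht.1
      show Real.pi * ((F t - 2 * t * A') / (Real.pi * t ^ 2) * t) ≤ _
      rw [show Real.pi * ((F t - 2 * t * A') / (Real.pi * t ^ 2) * t) = (F t - 2 * t * A') / t by
        field_simp, div_le_iff₀ h0]
      nlinarith)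
    linarith
  subst e
  refine ⟨rfl, ge_of_tendsto hL (ev.mono fun t ht => ?_), ?_⟩
  · have := (h t ht.1 ht.2).1
    have h0 := ht.1
    rw [div_le_div_iff₀ hp (by positivity)]
    nlinarith
  · have a3 := ((t0.const_mul 8).const_add C).div_const Real.pi
    simp only [mul_zero, add_zero] at a3
    refine le_of_tendsto_of_tendsto hL a3 (ev.mono fun t ht => ?_)
    have := (h t ht.1 ht.2).2
    have h0 := ht.1
    show (F t - 2 * t * A') / (Real.pi * t ^ 2) ≤ (C + 8 * t) / Real.pi
    rw [div_le_div_iff₀ (by positivity) hp]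
    nlinarith

end Pool.Agent.H.MP_598757_gt
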