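import Mathlib
import Pool.Agent.H.MP_598757_gt.A

set_option autoImplicit false
open MeasureTheory Set Filter Topology
open scoped Pointwise

namespace Pool.Agent.H.MP_598757_gt

noncomputable abbrev eb : OrthonormalBasis (Fin 3) ℝ E := EuclideanSpace.basisFun (Fin 3) ℝ

def K : Set E := Bx eb ![-1, -1, -100000] ![1, 1, 100000]

theorem mem_Bx_eb {lo hi : Fin 3 → ℝ} {x : E} : x ∈ Bx eb lo hi ↔
    (lo 0 ≤ x 0 ∧ x 0 ≤ hi 0) ∧ (lo 1 ≤ x 1 ∧ x 1 ≤ hi 1) ∧ (lo 2 ≤ x 2 ∧ x 2 ≤ hi 2) := by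
  simp [Bx, Fin.forall_fin_succ, EuclideanSpace.inner_single_left]

theorem mem_K {x : E} : x ∈ K ↔ |x 0| ≤ 1 ∧ |x 1| ≤ 1 ∧ |x 2| ≤ 100000 := by
  simp [K, mem_Bx_eb, abs_le]

theorem inner3 (x y : E) : inner ℝ x y = x 0 * y 0 + x 1 * y 1 + x 2 * y 2 := by
  simp [PiLp.inner_apply, Fin.sum_univ_three]; ring

theorem norm_K {x : E} (h : x ∈ K) : ‖x‖ ≤ 200000 := by
  obtain ⟨h0, h1, h2⟩ := mem_K.1 h
  rw [abs_le] at h0 h1 h2
  have := real_inner_self_eq_norm_sq x
  rw [inner3] at this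
  refine abs_le_of_sq_le_sq' ?_ (by norm_num) |>.2
  nlinarith

theorem K_convex : Convex ℝ K := convex_Bx _ _ _

theorem K_compact : IsCompact K := by
  refine Metric.isCompact_of_isClosed_isBounded ?_ ?_
  · have : K = {x : E | |x 0| ≤ 1} ∩ ({x : E | |x 1| ≤ 1} ∩ {x : E | |x 2| ≤ 100000}) := by
      ext x; simp [mem_K]
    rw [this]
    refine IsClosed.inter ?_ (IsClosed.inter ?_ ?_) <;>
      exact isClosed_le (by fun_prop) continuous_const
  · exact (Metric.isBounded_closedBall (x := (0 : E)) (r := 200000)).subset fun x hx => by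
      simpa using norm_K hx

theorem K_int : (interior K).Nonempty := by
  refine ⟨0, mem_interior.2 ⟨Metric.ball 0 1, fun x hx => ?_, Metric.isOpen_ball, by simp⟩⟩
  have h : ∀ i, |x i| ≤ 1 := fun i =>
    (PiLp.norm_apply_le x i).trans (le_of_lt (by simpa using hx))
  exact mem_K.2 ⟨h 0, h 1, (h 2).trans (by norm_num)⟩

theorem vol_K : volume.real K = 800000 := by
  rw [K, vol_Bx _ _ _ (by intro i; fin_cases i <;> simp)]
  simp; norm_num

theorem S_lim : Tendsto (fun t : ℝ =>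
    ((volume (K + Metric.closedBall (0 : E) t)).toReal - (volume K).toReal) / (2 * t))
    (𝓝[>] 0) (𝓝 800004) := by
  have t0 : Tendsto (fun t : ℝ => t) (𝓝[>] 0) (𝓝 0) := tendsto_nhdsWithin_of_tendsto_nhds tendsto_id
  have a := (t0.mul ((t0.const_mul 4).const_add 400008)).const_add 800004
  simp only [zero_mul, add_zero] at a
  have sub : ∀ t : ℝ, K + Metric.closedBall (0 : E) t ⊆
      Bx eb ![-1 - t, -1 - t, -100000 - t] ![1 + t, 1 + t, 100000 + t] := by
    rintro t _ ⟨x, hx, y, hy, rfl⟩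
    have h : ∀ i, |y i| ≤ t := fun i => (PiLp.norm_apply_le y i).trans (by simpa using hy)
    obtain ⟨h0, h1, h2⟩ := mem_K.1 hx
    have g0 := h 0
    have g1 := h 1
    have g2 := h 2
    rw [abs_le] at h0 h1 h2 g0 g1 g2
    simp only [mem_Bx_eb, PiLp.add_apply, Matrix.cons_val]
    refine ⟨⟨?_, ?_⟩, ⟨?_, ?_⟩, ?_, ?_⟩ <;> linarith
  refine tendsto_of_tendsto_of_tendsto_of_le_of_le' tendsto_const_nhds a ?_ ?_
  · filter_upwards [self_mem_nhdsWithin] with t ht
    have ht : 0 < t := ht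
    set V0 := Bx eb ![-1 - t, -1, -100000] ![1 + t, 1, 100000]
    set V1 := Bx eb ![-1, -1 - t, -100000] ![1, 1 + t, 100000]
    set V2 := Bx eb ![-1, -1, -100000 - t] ![1, 1, 100000 + t]
    have v0 : volume.real V0 = 800000 + 800000 * t := by
      rw [vol_Bx _ _ _ (by intro i; fin_cases i <;> simp <;> linarith)]; simp; ring
    have v1 : volume.real V1 = 800000 + 800000 * t := by
      rw [vol_Bx _ _ _ (by intro i; fin_cases i <;> simp <;> linarith)]; simp; ring
    have v2 : volume.real V2 = 800000 + 8 * t := by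
      rw [vol_Bx _ _ _ (by intro i; fin_cases i <;> simp <;> linarith)]; simp; ring
    have u1 := measureReal_union_add_inter₀ (μ := volume) (s := V0) (t := V1)
      ((convex_Bx _ _ _).nullMeasurableSet volume) (Bx_fin _ _ _) (Bx_fin _ _ _)
    have u2 := measureReal_union_add_inter₀ (μ := volume) (s := V0 ∪ V1) (t := V2)
      ((convex_Bx _ _ _).nullMeasurableSet volume)
      (measure_union_ne_top (Bx_fin _ _ _) (Bx_fin _ _ _)) (Bx_fin _ _ _)
    have i1 : volume.real (V0 ∩ V1) ≤ volume.real K := by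
      refine measureReal_mono (fun x hx => ?_) (Bx_fin _ _ _)
      obtain ⟨h1, h2⟩ := hx
      simp only [V0, V1, K, mem_Bx_eb, Matrix.cons_val] at h1 h2 ⊢
      tauto
    have i2 : volume.real ((V0 ∪ V1) ∩ V2) ≤ volume.real K := by
      refine measureReal_mono (fun x hx => ?_) (Bx_fin _ _ _)
      obtain ⟨h1 | h1, h2⟩ := hx <;>
      · simp only [V0, V1, V2, K, mem_Bx_eb, Matrix.cons_val] at h1 h2 ⊢
        tauto
    have key : ∀ (x : E) (i : Fin 3) (c : ℝ), 0 ≤ c → |x i| ≤ c + t →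
        (∀ s, |s| ≤ c → x + (s - x i) • eb i ∈ K) → x ∈ K + Metric.closedBall (0 : E) t := by
      intro x i c hc h1 h2
      refine ⟨_, h2 (max (-c) (min c (x i))) ?_, (x i - max (-c) (min c (x i))) • eb i, ?_, ?_⟩
      · rw [abs_le]
        exact ⟨le_max_left _ _, max_le (by linarith) (min_le_left _ _)⟩
      · rw [mem_closedBall_zero_iff, norm_smul, eb.orthonormal.1 i, mul_one, Real.norm_eq_abs]
        rw [abs_le] at h1 ⊢
        simp only [max_def, min_def]
        split_ifs <;> constructor <;> linarith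
      · module
    have i3 : volume.real (V0 ∪ V1 ∪ V2) ≤ volume.real (K + Metric.closedBall (0 : E) t) := by
      refine measureReal_mono ?_ (ne_top_of_le_ne_top (Bx_fin _ _ _) (measure_mono (sub t)))
      rintro x ((hx | hx) | hx) <;> simp only [V0, V1, V2, mem_Bx_eb, Matrix.cons_val] at hx
      · refine key x 0 1 (by norm_num) (abs_le.2 ⟨by linarith, by linarith⟩) fun s hs => ?_
        simp [mem_K, hs, abs_le, hx]
      · refine key x 1 1 (by norm_num) (abs_le.2 ⟨by linarith, by linarith⟩) fun s hs => ?_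
        simp [mem_K, hs, abs_le, hx]
      · refine key x 2 100000 (by norm_num) (abs_le.2 ⟨by linarith, by linarith⟩) fun s hs => ?_
        simp [mem_K, hs, abs_le, hx]
    have := vol_K
    rw [le_div_iff₀ (by positivity)]
    simp only [Measure.real] at *
    linarith
  · filter_upwards [self_mem_nhdsWithin] with t ht
    have ht : 0 < t := ht
    have := measureReal_mono (μ := volume) (sub t) (Bx_fin _ _ _)
    rw [vol_Bx _ _ _ (by intro i; fin_cases i <;> simp <;> linarith)] at this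
    have h := vol_K
    rw [div_le_iff₀ (by positivity)]
    simp only [Measure.real, Matrix.cons_val] at *
    nlinarith

def Zt (u : E) (t : ℝ) : Set E := {x | |inner ℝ u x| ≤ t ∧ ∃ s : ℝ, x + s • u ∈ K}

theorem convex_Zt (u : E) (t : ℝ) : Convex ℝ (Zt u t) := by
  rintro x ⟨h1, s, h2⟩ y ⟨h3, s', h4⟩ a c ha hc hac
  refine ⟨?_, a * s + c * s', ?_⟩
  · rw [abs_le] at *
    simp only [inner_add_right, inner_smul_right]
    have e1 : t = a * t + c * t := by rw [← add_mul, hac, one_mul]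
    constructor <;> nlinarith [mul_le_mul_of_nonneg_left h1.1 ha, mul_le_mul_of_nonneg_left h1.2 ha,
      mul_le_mul_of_nonneg_left h3.1 hc, mul_le_mul_of_nonneg_left h3.2 hc]
  · convert K_convex h2 h4 ha hc hac using 1
    module

theorem vol_Zt {u : E} (hu : inner ℝ u u = 1) {t : ℝ} (ht : 0 < t) :
    volume.real (Zt u t) = t * volume.real (Zt u 1) := by
  set f : E →ₗ[ℝ] E := LinearMap.transvection (innerₗ E u) ((t - 1) • u) with hf
  have d : LinearMap.det f = t := by
    rw [hf, LinearMap.transvection.det]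
    simp only [innerₗ_apply_apply, inner_smul_right, hu]
    ring
  have e : f ⁻¹' Zt u t = Zt u 1 := by
    ext x
    have e1 : f x = x + (inner ℝ u x * (t - 1)) • u := by
      simp [hf, LinearMap.transvection.apply, smul_smul]
    have e2 : inner ℝ u (f x) = t * inner ℝ u x := by
      rw [e1, inner_add_right, inner_smul_right, hu]; ring
    simp only [Zt, mem_preimage, mem_ofPred_eq, e2, abs_mul, abs_of_pos ht]
    refine and_congr (mul_le_iff_le_one_right ht) ⟨?_, ?_⟩
    · rintro ⟨s, hs⟩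
      exact ⟨inner ℝ u x * (t - 1) + s, by rwa [add_smul, ← add_assoc, ← e1]⟩
    · rintro ⟨s, hs⟩
      refine ⟨s - inner ℝ u x * (t - 1), ?_⟩
      convert hs using 1
      rw [e1]; module
  have := Measure.addHaar_preimage_linearMap volume (f := f) (by rw [d]; exact ht.ne') (Zt u t)
  rw [e, d] at this
  rw [Measure.real, Measure.real, this, ENNReal.toReal_mul, ENNReal.toReal_ofReal (abs_nonneg _),
    abs_of_pos (inv_pos.2 ht)]
  field_simp

theorem Zt_sub (b : OrthonormalBasis (Fin 3) ℝ E) (h2 : b 2 2 = 0) (t : ℝ) :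
    Zt (b 0) t ⊆ Bx b ![-t, -(2 + |b 1 2| * 100000), -2] ![t, 2 + |b 1 2| * 100000, 2] := by
  rintro x ⟨h1, s, hs⟩
  obtain ⟨k0, k1, k2⟩ := mem_K.1 hs
  have c : ∀ j, j ≠ 0 → |inner ℝ (b j) x| ≤ 2 + |b j 2| * 100000 := by
    intro j hj
    have e : inner ℝ (b j) x = inner ℝ (b j) (x + s • b 0) := by
      rw [inner_add_right, inner_smul_right, inner_b, if_neg hj]; ring
    have n : ∀ i, |b j i| ≤ 1 := fun i =>
      (PiLp.norm_apply_le (b j) i).trans (b.orthonormal.1 j).le
    rw [e, inner3]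
    refine (abs_add_three _ _ _).trans ?_
    rw [abs_mul, abs_mul, abs_mul]
    have m0 := mul_le_mul (n 0) k0 (abs_nonneg _) zero_le_one
    have m1 := mul_le_mul (n 1) k1 (abs_nonneg _) zero_le_one
    have m2 := mul_le_mul_of_nonneg_left k2 (abs_nonneg (b j 2))
    linarith
  have c1 := abs_le.1 (c 1 (by decide))
  have c2 := abs_le.1 (c 2 (by decide))
  rw [h2] at c2
  intro i
  fin_cases i
  · simpa using abs_le.1 h1
  · simpa using c1
  · simpa using c2

theorem low_A {u : E} (hu : inner ℝ u u = 1) (hf : volume (Zt u 1) ≠ ⊤) (v w : E)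
    (h : ∀ α β : ℝ, |α| ≤ 1 → |β| ≤ 1 → α • v + β • w ∈ K) :
    8 * |v 0 * w 1 * u 2 - v 0 * w 2 * u 1 - v 1 * w 0 * u 2 + v 1 * w 2 * u 0 + v 2 * w 0 * u 1
      - v 2 * w 1 * u 0| ≤ volume.real (Zt u 1) := by
  set v' := v - inner ℝ u v • u with hv
  set w' := w - inner ℝ u w • u with hw
  have h1 := Measure.addHaar_parallelepiped eb.toBasis ![(2 : ℝ) • v', (2 : ℝ) • w', (2 : ℝ) • u]
  rw [OrthonormalBasis.addHaar_eq_volume] at h1
  have p1 : volume ((fun x => x + -(v' + w' + u)) ⁻¹' Zt u 1) = volume (Zt u 1) :=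
    measure_preimage_add_right _ _ _
  have h2 : parallelepiped ![(2 : ℝ) • v', (2 : ℝ) • w', (2 : ℝ) • u] ⊆
      (fun x => x + -(v' + w' + u)) ⁻¹' Zt u 1 := by
    intro x hx
    obtain ⟨t, ht, rfl⟩ := (mem_parallelepiped_iff _ _).1 hx
    have a : ∀ i, |2 * t i - 1| ≤ 1 := fun i => by
      have a1 : 0 ≤ t i := ht.1 i
      have a2 : t i ≤ 1 := ht.2 i
      rw [abs_le]; constructor <;> linarith
    simp only [Fin.sum_univ_three, Matrix.cons_val, mem_preimage]
    refine ⟨?_, (2 * t 0 - 1) * inner ℝ u v + (2 * t 1 - 1) * inner ℝ u w - (2 * t 2 - 1), ?_⟩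
    · convert a 2 using 2
      simp only [hv, hw, inner_add_right, inner_neg_right, inner_sub_right, inner_smul_right, hu]
      ring
    · convert h _ _ (a 0) (a 1) using 1
      rw [hv, hw]
      module
  have h3 := measureReal_mono (μ := volume) h2 (by rwa [p1])
  rw [Measure.real, Measure.real, p1, h1, ENNReal.toReal_ofReal (abs_nonneg _)] at h3
  refine le_trans (le_of_eq ?_) h3
  rw [← abs_of_pos (show (0 : ℝ) < 8 by norm_num), ← abs_mul]
  congr 1
  rw [Module.Basis.det_apply, Matrix.det_fin_three]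
  simp [Module.Basis.toMatrix_apply, hv, hw]
  ring

theorem exists_b {u : E} (hu : inner ℝ u u = 1) :
    ∃ b : OrthonormalBasis (Fin 3) ℝ E, b 0 = u ∧ b 2 2 = 0 := by
  obtain ⟨w, h1, h2, h3⟩ : ∃ w : E, inner ℝ w w = 1 ∧ inner ℝ u w = 0 ∧ w 2 = 0 := by
    by_cases c : u 0 ^ 2 + u 1 ^ 2 = 0
    · refine ⟨!₂[1, 0, 0], by rw [inner3]; simp, ?_, by simp⟩
      have : u 0 = 0 := by nlinarith [sq_nonneg (u 0), sq_nonneg (u 1)]
      simp [inner3, this]
    · have c' : 0 < u 0 ^ 2 + u 1 ^ 2 := lt_of_le_of_ne (by positivity) (Ne.symm c)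
      have s1 := Real.sq_sqrt c'.le
      have s2 := Real.sqrt_pos.2 c'
      set s := √(u 0 ^ 2 + u 1 ^ 2)
      refine ⟨!₂[-u 1 / s, u 0 / s, 0], ?_, ?_, by simp⟩
      · rw [inner3]
        simp only [Matrix.cons_val]
        field_simp
        linarith
      · rw [inner3]
        simp only [Matrix.cons_val]
        ring
  have o : Orthonormal ℝ (({0, 2} : Set (Fin 3)).domRestrict ![u, 0, w]) := by
    rw [orthonormal_iff_ite]
    rintro ⟨i, rfl | rfl⟩ ⟨j, rfl | rfl⟩
    · simpa using hu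
    · simpa using h2
    · simpa [real_inner_comm] using h2
    · simpa using h1
  obtain ⟨b, hb⟩ := o.exists_orthonormalBasis_extension_of_card_eq (by simp)
  exact ⟨b, hb 0 (by simp), by rw [hb 2 (by simp)]; exact h3⟩

theorem bounds (b : OrthonormalBasis (Fin 3) ℝ E) (h2 : b 2 2 = 0) (t : ℝ) (ht : 0 < t)
    (ht1 : t ≤ 1) :
    2 * t * (volume.real (Zt (b 0) 1) / 2) + (volume.real (Zt (b 0) 1) / 2) / 800000 * t ^ 2 ≤
      (volume ((fun x : E => x - (inner ℝ (b 0) x) • b 0) '' K + Metric.closedBall (0 : E) t)).toReal ∧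
    (volume ((fun x : E => x - (inner ℝ (b 0) x) • b 0) '' K + Metric.closedBall (0 : E) t)).toReal ≤
      2 * t * (volume.real (Zt (b 0) 1) / 2) + t ^ 2 * (8 * (4 + |b 1 2| * 100000) + 8 * t) := by
  have hu : inner ℝ (b 0) (b 0) = 1 := by rw [inner_b, if_pos rfl]
  have hn : ‖b 0‖ = 1 := b.orthonormal.1 0
  set Q := (fun x : E => x - (inner ℝ (b 0) x) • b 0) '' K + Metric.closedBall (0 : E) t with hQ
  set σ := |b 1 2| with hσ
  have σ0 : 0 ≤ σ := abs_nonneg _
  have s1 : Q ⊆ Ex (Ex (Zt (b 0) t) (b 1) t) (b 2) t := by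
    rintro _ ⟨_, ⟨k, hk, rfl⟩, y, hy, rfl⟩
    have n : ∀ i, |inner ℝ (b i) y| ≤ t := fun i => by
      have := abs_real_inner_le_norm (b i) y
      rw [b.orthonormal.1 i, one_mul] at this
      exact this.trans (by simpa using hy)
    have e := b.sum_repr' y
    rw [Fin.sum_univ_three] at e
    refine ⟨_, n 2, _, n 1, ?_⟩
    have e2 : k - inner ℝ (b 0) k • b 0 + y - inner ℝ (b 2) y • b 2 - inner ℝ (b 1) y • b 1 =
        k + (inner ℝ (b 0) y - inner ℝ (b 0) k) • b 0 := by
      conv_lhs => enter [1, 1, 2]; rw [← e]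
      module
    simp only [e2]
    refine ⟨?_, -(inner ℝ (b 0) y - inner ℝ (b 0) k), by rwa [neg_smul, add_neg_cancel_right]⟩
    convert n 0 using 2
    rw [inner_add_right, inner_smul_right, hu]
    ring
  have z1 := Zt_sub b h2
  have z2 := Ex_sub b (z1 t) 1 t
  have fQ : volume Q ≠ ⊤ :=
    ne_top_of_le_ne_top (Bx_fin _ _ _) (measure_mono (s1.trans (Ex_sub b z2 2 t)))
  have fZ : ∀ r, volume (Zt (b 0) r) ≠ ⊤ := fun r =>
    ne_top_of_le_ne_top (Bx_fin _ _ _) (measure_mono (z1 r))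
  have v0 := vol_Zt hu ht
  constructor
  · set l := t / 1600000 with hl
    have l0 : 0 < l := by positivity
    have l1 : l ≤ 1 / 2 := by rw [hl]; linarith
    have dec : ∀ r x, x ∈ Zt (b 0) r → ∃ k ∈ K, x = k - inner ℝ (b 0) k • b 0 +
        inner ℝ (b 0) x • b 0 := by
      rintro r x ⟨-, s, hs⟩
      refine ⟨_, hs, ?_⟩
      rw [inner_add_right, inner_smul_right, hu]
      module
    have s2 : Zt (b 0) t ∪ (1 + l) • Zt (b 0) (t / 2) ⊆ Q := by
      rintro x (hx | ⟨x, hx, rfl⟩)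
      · obtain ⟨k, hk, e⟩ := dec _ x hx
        refine ⟨_, ⟨k, hk, rfl⟩, _, ?_, e.symm⟩
        rw [mem_closedBall_zero_iff, norm_smul, hn, mul_one]
        exact hx.1
      · obtain ⟨k, hk, e⟩ := dec _ x hx
        refine ⟨_, ⟨k, hk, rfl⟩, l • (k - inner ℝ (b 0) k • b 0) +
          ((1 + l) * inner ℝ (b 0) x) • b 0, ?_, ?_⟩
        · rw [mem_closedBall_zero_iff]
          refine (norm_add_le _ _).trans ?_
          have n1 := norm_K hk
          have n2 := abs_real_inner_le_norm (b 0) k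
          have n3 := norm_sub_le k (inner ℝ (b 0) k • b 0)
          have n4 := hx.1
          rw [norm_smul, hn, Real.norm_eq_abs] at n3
          rw [hn] at n2
          rw [norm_smul, norm_smul, hn, Real.norm_eq_abs, Real.norm_eq_abs, abs_mul, abs_of_pos l0,
            abs_of_pos (by linarith : 0 < 1 + l)]
          have m1 := mul_le_mul_of_nonneg_left (show ‖k - inner ℝ (b 0) k • b 0‖ ≤ 400000 by
            linarith) l0.le
          have m2 := mul_le_mul (show 1 + l ≤ 3 / 2 by linarith) n4 (abs_nonneg _) (by norm_num)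
          linarith
        · conv_rhs => rw [e]
          module
    have s3 : Zt (b 0) t ∩ (1 + l) • Zt (b 0) (t / 2) ⊆ Zt (b 0) ((1 + l) * (t / 2)) := by
      rintro _ ⟨h1, x, hx, rfl⟩
      refine ⟨?_, h1.2⟩
      simp only [inner_smul_right, abs_mul, abs_of_pos (by linarith : 0 < 1 + l)]
      exact mul_le_mul_of_nonneg_left hx.1 (by linarith)
    have v1 := Measure.addHaar_smul_of_nonneg volume (by linarith : 0 ≤ 1 + l) (Zt (b 0) (t / 2))
    have u1 := measureReal_union_add_inter₀' (μ := volume) (s := Zt (b 0) t)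
      (t := (1 + l) • Zt (b 0) (t / 2)) ((convex_Zt _ _).nullMeasurableSet volume) (fZ _)
      (by rw [v1]; exact ENNReal.mul_ne_top ENNReal.ofReal_ne_top (fZ _))
    have v2 : volume.real ((1 + l) • Zt (b 0) (t / 2)) =
        (1 + l) ^ 3 * (t / 2 * volume.real (Zt (b 0) 1)) := by
      rw [← vol_Zt hu (half_pos ht), Measure.real, v1, ENNReal.toReal_mul,
        ENNReal.toReal_ofReal (by positivity)]
      simp [Measure.real]
    have i1 := measureReal_mono (μ := volume) s2 fQ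
    have i2 := measureReal_mono (μ := volume) s3 (fZ _)
    rw [vol_Zt hu (by positivity)] at i2
    have a0 : 0 ≤ volume.real (Zt (b 0) 1) := measureReal_nonneg
    have m : 0 ≤ (3 * l ^ 2 + l ^ 3) * (t / 2 * volume.real (Zt (b 0) 1)) := by positivity
    have e : volume.real (Zt (b 0) 1) / 2 / 800000 * t ^ 2 =
        2 * l * (t / 2 * volume.real (Zt (b 0) 1)) := by rw [hl]; ring
    rw [e]
    simp only [Measure.real] at *
    linarith
  · have i1 := measureReal_mono (μ := volume) s1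
      (ne_top_of_le_ne_top (Bx_fin _ _ _) (measure_mono (Ex_sub b z2 2 t)))
    have i2 := vol_Ex (convex_Zt (b 0) t) b (z1 t) 1 ht.le
    have i3 := vol_Ex (convex_Ex (convex_Zt (b 0) t) (b 1) t) b z2 2 ht.le
    rw [vol_Bx _ _ _ (by intro i; fin_cases i <;> simp <;> linarith)] at i2 i3
    simp at i2 i3
    simp only [Measure.real] at *
    linarith

theorem main (u : E) (hu : ‖u‖ = 1) (L : ℝ)
    (hL : Tendsto (fun t : ℝ =>
        ((volume ((fun x : E => x - (inner ℝ u x) • u) '' K + Metric.closedBall (0 : E) t)).toReal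
          - 2 * t * ((volume (K + segment ℝ (0 : E) u)).toReal - (volume K).toReal)) /
            (Real.pi * t ^ 2)) (𝓝[>] 0) (𝓝 L)) :
    9 * Real.pi / 1600000 ≤
      Real.pi * ((volume (K + segment ℝ (0 : E) u)).toReal - (volume K).toReal) / L ^ 2 := by
  have hu' : inner ℝ u u = 1 := by rw [real_inner_self_eq_norm_sq, hu]; norm_num
  obtain ⟨b, rfl, h2⟩ := exists_b hu'
  obtain ⟨e, h3, h4⟩ := analysis _ _ _ _ _ L (bounds b h2) hL
  rw [e]
  have fZ : volume (Zt (b 0) 1) ≠ ⊤ :=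
    ne_top_of_le_ne_top (Bx_fin _ _ _) (measure_mono (Zt_sub b h2 1))
  have a1 := low_A hu' fZ !₂[1, 1, 0] !₂[0, 0, 100000] fun α β ha hb => by
    simp [mem_K, ha, abs_mul, hb]
  have a2 := low_A hu' fZ !₂[1, -1, 0] !₂[0, 0, 100000] fun α β ha hb => by
    simp [mem_K, ha, abs_mul, hb]
  have a3 := low_A hu' fZ !₂[1, 0, 0] !₂[0, 1, 0] fun α β ha hb => by
    simp [mem_K, ha, hb]
  simp only [Matrix.cons_val] at a1 a2 a3
  have p := b.sum_sq_inner_right (eb 2)
  rw [Fin.sum_univ_three, eb.orthonormal.1 2] at p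
  simp [inner3, h2] at p
  rw [inner3] at hu'
  set A := volume.real (Zt (b 0) 1) / 2 with hA
  set σ := |b 1 2| with hσ
  have σ0 : 0 ≤ σ := abs_nonneg _
  have σ2 : σ ^ 2 = b 1 2 ^ 2 := sq_abs _
  have σ1 : σ ≤ 1 := by nlinarith [sq_nonneg (b 0 2)]
  have c1 : 400000 * σ ≤ A := by
    have g1 := abs_le.1 (show |b 0 0 - b 0 1| ≤ A / 400000 by
      rw [show (1 : ℝ) * 0 * b 0 2 - 1 * 100000 * b 0 1 - 1 * 0 * b 0 2 + 1 * 100000 * b 0 0 +
        0 * 0 * b 0 1 - 0 * 0 * b 0 0 = 100000 * (b 0 0 - b 0 1) by ring, abs_mul] at a1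
      norm_num at a1
      linarith)
    have g2 := abs_le.1 (show |b 0 0 + b 0 1| ≤ A / 400000 by
      rw [show (1 : ℝ) * 0 * b 0 2 - 1 * 100000 * b 0 1 - -1 * 0 * b 0 2 + -1 * 100000 * b 0 0 +
        0 * 0 * b 0 1 - 0 * 0 * b 0 0 = -100000 * (b 0 0 + b 0 1) by ring, abs_mul] at a2
      norm_num at a2
      linarith)
    have : σ ≤ A / 400000 := by
      refine abs_le_of_sq_le_sq' ?_ (by linarith) |>.2
      nlinarith
    linarith
  have c2 : 4 * |b 0 2| ≤ A := by
    norm_num at a3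
    linarith
  have hp := Real.pi_gt_d2
  have c3 : 0 < A ∧ 36 * (4 + σ * 100000) ^ 2 ≤ 9.8 * (A * 100000) := by
    by_cases c : σ ≤ 1 / 1000
    · have : 1 / 2 ≤ |b 0 2| := by
        by_contra g
        have := sq_abs (b 0 2)
        nlinarith [abs_nonneg (b 0 2)]
      exact ⟨by linarith, by nlinarith⟩
    · exact ⟨by linarith, by nlinarith⟩
  have L0 : 0 < L := lt_of_lt_of_le (by have := c3.1; positivity) h3
  rw [le_div_iff₀ (by positivity)] at h4 ⊢
  have m1 : (L * Real.pi) ^ 2 ≤ (8 * (4 + σ * 100000)) ^ 2 := by gcongr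
  have m2 : L ^ 2 * 9.8 ≤ (L * Real.pi) ^ 2 := by
    rw [mul_pow]
    gcongr
    nlinarith
  have m3 : 9 / 1600000 * L ^ 2 ≤ A := by nlinarith [c3.2]
  nlinarith

end Pool.Agent.H.MP_598757_gt
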